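import Pool.Agent.Helper26.WR.Stmts

set_option autoImplicit false

namespace Pool.Agent.Helper26.WR

open Polynomial

universe u

theorem st_CMP : ST_CMP.{u} := by
  intro K0 M0 F _ _ _ _ _ _ _
  obtain ⟨p, hsep, hsp⟩ := IsGalois.is_separable_splitting_field K0 M0
  set q : F[X] := p.map (algebraMap K0 F) with hq
  have hqsep : q.Separable := hsep.map
  set N : Type u := q.SplittingField with hN
  haveI tow : IsScalarTower K0 F N := inferInstance
  haveI gal : IsGalois F N := IsGalois.of_separable_splitting_field (p := q) hqsep
  have hmap : p.map (algebraMap K0 N) = q.map (algebraMap F N) := by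
    calc p.map (algebraMap K0 N) = p.map ((algebraMap F N).comp (algebraMap K0 F)) := by
          rw [← IsScalarTower.algebraMap_eq]
      _ = q.map (algebraMap F N) := (Polynomial.map_map _ _ _).symm
  have hsplN : (p.map (algebraMap K0 N)).Splits := by
    rw [hmap]; exact SplittingField.splits q
  let j : M0 →ₐ[K0] N := IsSplittingField.lift M0 p hsplN
  letI aM : Algebra M0 N := j.toRingHom.toAlgebra
  haveI tow2 : IsScalarTower K0 M0 N := IsScalarTower.of_algebraMap_eq (fun x => (j.commutes x).symm)
  let r : (N ≃ₐ[F] N) →* (M0 ≃ₐ[K0] M0) :=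
    (AlgEquiv.restrictNormalHom M0).comp (AlgEquiv.restrictScalarsHom K0)
  have hr : ∀ σ x, j (r σ x) = σ (j x) := by
    intro σ x
    exact AlgEquiv.restrictNormal_commutes (AlgEquiv.restrictScalars K0 σ) M0 x
  refine ⟨N, inferInstance, inferInstance, inferInstance, gal, j.toRingHom, r, ?_, hr, ?_⟩
  · intro x
    exact j.commutes x
  · rw [injective_iff_map_eq_one]
    intro σ hσ
    have hfix : ∀ x, σ (j x) = j x := by
      intro x
      rw [← hr σ x, hσ]; rfl
    have htop : Algebra.adjoin F (q.rootSet N) = ⊤ := SplittingField.adjoin_rootSet q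
    have hroots : q.rootSet N = j '' (p.rootSet M0) := by
      rw [(IsSplittingField.splits M0 p).image_rootSet j]
      ext x
      simp only [Polynomial.rootSet, Polynomial.aroots, hmap]
    have hh : (σ : N →ₐ[F] N) = AlgHom.id F N := by
      apply AlgHom.ext_of_adjoin_eq_top htop
      intro x hx
      rw [hroots] at hx
      obtain ⟨y, -, rfl⟩ := hx
      exact hfix y
    ext x
    exact DFunLike.congr_fun hh x

end Pool.Agent.Helper26.WR
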